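import Mathlib
import Pool.Agent.H99.Mor0
import Pool.Agent.H99.Mor10

set_option autoImplicit false

open H99.Mor Set

theorem Pool.Agent.Results.MP_e9cdae_an.NonUnique.result :
    ∃ (p : ℝ) (Ω : Set (EuclideanSpace ℝ (Fin 3))), 3 < p ∧ IsOpen Ω ∧ IsConnected Ω ∧ Ω ≠ univ ∧
      ∃ u v : EuclideanSpace ℝ (Fin 3) → ℝ, Ext p Ω u ∧ Ext p Ω v ∧
        ¬ ∃ c : ℝ, c ≠ 0 ∧ ∃ r : ℝ, 0 < r ∧
          ∃ (Q : EuclideanSpace ℝ (Fin 3) ≃ₗᵢ[ℝ] EuclideanSpace ℝ (Fin 3))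
            (b : EuclideanSpace ℝ (Fin 3)),
            (fun x => r • Q x + b) '' Ω = Ω ∧ ∀ x, v x = c * u (r • Q x + b) := by
  obtain ⟨δ, θ, x, x', h0, h1, ne, h⟩ := two_peaks
  have hp : (3 : ℝ) < 301 / 100 := by norm_num
  have o := (Om_open δ).preimage (P θ).symm.continuous
  have hq : P θ (qq 1) ∉ (P θ).symm ⁻¹' Om δ := by
    simpa using not_Om (q_Z (Or.inl rfl)) (show ‖qq 1 - qq 1‖ ≤ δ by simpa using h0.le)
  obtain ⟨a1, a2, a3⟩ := h x (Or.inl rfl)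
  obtain ⟨b1, b2, b3⟩ := h x' (Or.inr rfl)
  obtain ⟨s1, u, G, d1, n1, e1, x1⟩ := ext_of_max hp o hq a1 a2 a3
  obtain ⟨s2, v, H, d2, n2, e2, x2⟩ := ext_of_max hp o hq b1 b2 b3
  refine ⟨301 / 100, _, hp, o, ?_, fun e => hq (e ▸ mem_univ _), u, v, x1, x2, ?_⟩
  · rw [← (P θ).image_eq_preimage_symm]
    exact (Om_conn h0 h1).image _ (P θ).continuous.continuousOn
  rintro ⟨c, -, r, hr, Q, b, hT, e⟩
  simp only [nosym h0 h1 θ hr Q b hT] at e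
  have l1 := s_le hp hq d2 x
  have l2 := s_le hp hq d1 x'
  rw [n2, mul_one, e, e1, abs_mul, abs_of_pos s1] at l1
  rw [n1, mul_one] at l2
  have l3 : |c| ≤ 1 := le_of_mul_le_mul_right (by simpa using l1) s1
  have l4 := congrArg abs (e x')
  rw [e2, abs_of_pos s2, abs_mul] at l4
  refine peak hp o hq b1 ne.symm d1 (n1 ▸ one_pos) s1 s2 (by rw [e1, n1, mul_one, abs_of_pos s1]) ?_
  rw [n1, mul_one]
  exact le_antisymm l2 (l4.trans_le (mul_le_of_le_one_left (abs_nonneg _) l3))
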